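import Pool.Agent.H447R3.SimB

open CategoryTheory AlgebraicGeometry

universe u v

open Pool.Agent.H914 Pool.Agent.H914.VarClass Pool.Agent.H914.VarClass.Obj Pool.Agent.H447

/-- **The standard conjecture D for the square of a variety with simple Frobenius spectrum.** Let
`X` be a smooth proper variety of dimension `n` over an algebraically closed field, `W` a Weil
cohomology theory, `D` a divisor on `X` whose class satisfies hard Lefschetz, and `f` an
endomorphism of `X` such that `f × f` acts on the algebraic classes of `X × X` like a Frobenius
endomorphism (for every cycle of codimension `j` on `X × X` some iterate `(f × f)^m` multiplies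
its class by `q ^ (m j)`), and such that all powers of `f^*` have simple spectrum on the
transcendental cohomology of `X`. Then the following are equivalent: homological and numerical
equivalence coincide on `X × X`, in all codimensions; they coincide on `X × X` in the single
codimension `n + 1`; they coincide on `X` and the Lefschetz standard conjecture B holds
for `X`. -/
theorem Pool.Agent.Results.MP_f569db_ag.SimpleSquare.result {k : Type u} [Field k]
    [IsAlgClosed k] {𝒱 : VarClass k} {ops : CycleOps 𝒱} (W : WeilCohomology.{u, v} ops)
    (X : 𝒱.Obj) (D : X.Cycles) (hD : X.IsCyc 1 D) (hHL : HardLefschetz W X D) (f : X ⟶ X)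
    (q : ℕ) (hq : 0 < q) (hF : FrobeniusOnCycles W (X.prod X) (squareMap f) q)
    (hS : SimpleSpectrum W X f) :
    List.TFAE [HomEqNum W (X.prod X), HomEqNumIn W (X.prod X) (X.dim + 1),
      HomEqNum W X ∧ LefschetzB W X D] :=
  simple_tfae hD hHL hq hF hS
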